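import Mathlib

set_option autoImplicit false

open Polynomial

namespace Pool.Agent.Results.MP_514792_al.IntermediateRF

/-- The Heisenberg-type group attached to a group `U` acting through `χ : U →* Rˣ` on a
commutative ring `R`, an abelian group `A` and an additive map `lam : R → A`. -/
@[ext] structure Heis {U R A : Type} [CommGroup U] [CommRing R] [AddCommGroup A]
    (χ : U →* Rˣ) (lam : R →+ A) where
  u : U
  f : R
  g : R
  a : A

section HeisGroup

variable {U R A : Type} [CommGroup U] [CommRing R] [AddCommGroup A]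
  {χ : U →* Rˣ} {lam : R →+ A}

instance : Mul (Heis χ lam) :=
  ⟨fun x y => ⟨x.u * y.u, x.f + (χ x.u : R) * y.f, x.g + ((χ x.u)⁻¹ : Rˣ) * y.g,
    x.a + y.a + lam (x.f * (((χ x.u)⁻¹ : Rˣ) * y.g))⟩⟩

instance : One (Heis χ lam) := ⟨⟨1, 0, 0, 0⟩⟩

instance : Inv (Heis χ lam) :=
  ⟨fun x => ⟨x.u⁻¹, -(((χ x.u)⁻¹ : Rˣ) * x.f), -((χ x.u : R) * x.g), -x.a + lam (x.f * x.g)⟩⟩

@[simp] lemma mul_u (x y : Heis χ lam) : (x * y).u = x.u * y.u := rfl
@[simp] lemma mul_f (x y : Heis χ lam) : (x * y).f = x.f + (χ x.u : R) * y.f := rfl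
@[simp] lemma mul_g (x y : Heis χ lam) : (x * y).g = x.g + ((χ x.u)⁻¹ : Rˣ) * y.g := rfl
@[simp] lemma mul_a (x y : Heis χ lam) :
    (x * y).a = x.a + y.a + lam (x.f * (((χ x.u)⁻¹ : Rˣ) * y.g)) := rfl
@[simp] lemma one_u : (1 : Heis χ lam).u = 1 := rfl
@[simp] lemma one_f : (1 : Heis χ lam).f = 0 := rfl
@[simp] lemma one_g : (1 : Heis χ lam).g = 0 := rfl
@[simp] lemma one_a : (1 : Heis χ lam).a = 0 := rfl
@[simp] lemma inv_u (x : Heis χ lam) : (x⁻¹).u = x.u⁻¹ := rfl
@[simp] lemma inv_f (x : Heis χ lam) : (x⁻¹).f = -(((χ x.u)⁻¹ : Rˣ) * x.f) := rfl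
@[simp] lemma inv_g (x : Heis χ lam) : (x⁻¹).g = -((χ x.u : R) * x.g) := rfl
@[simp] lemma inv_a (x : Heis χ lam) : (x⁻¹).a = -x.a + lam (x.f * x.g) := rfl

instance : Group (Heis χ lam) :=
  Group.ofLeftAxioms
    (by
      intro x y z
      ext
      · simp [mul_assoc]
      · simp only [mul_f, mul_u, map_mul, Units.val_mul]; ring
      · simp only [mul_g, mul_u, map_mul, Units.val_mul, mul_inv]; ring
      · simp only [mul_a, mul_f, mul_g, mul_u, map_mul, Units.val_mul, mul_inv]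
        have h1 : (x.f + (χ x.u : R) * y.f) * ((((χ x.u)⁻¹ : Rˣ) : R) * (((χ y.u)⁻¹ : Rˣ) : R) * z.g)
            = x.f * ((((χ x.u)⁻¹ : Rˣ) : R) * ((((χ y.u)⁻¹ : Rˣ) : R) * z.g))
              + y.f * ((((χ y.u)⁻¹ : Rˣ) : R) * z.g) := by
          have h2 : (χ x.u : R) * (((χ x.u)⁻¹ : Rˣ) : R) = 1 := Units.mul_inv _
          linear_combination (y.f * (((χ y.u)⁻¹ : Rˣ) : R) * z.g) * h2
        rw [h1]
        simp only [mul_add, map_add]
        abel)
    (by
      intro x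
      ext <;> simp)
    (by
      intro x
      ext
      · simp
      · simp
      · simp
      · simp only [mul_a, inv_a, inv_f, inv_u, map_inv, inv_inv, one_a]
        have h2 : (χ x.u : R) * (((χ x.u)⁻¹ : Rˣ) : R) = 1 := Units.mul_inv _
        have h1 : -((((χ x.u)⁻¹ : Rˣ) : R) * x.f) * ((χ x.u : R) * x.g) = -(x.f * x.g) := by
          linear_combination (-(x.f * x.g)) * h2
        rw [h1, map_neg]
        abel)

end HeisGroup


/-- Functoriality of the Heisenberg-type group. -/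
def Heis.map {U R A U' R' A' : Type} [CommGroup U] [CommRing R] [AddCommGroup A]
    [CommGroup U'] [CommRing R'] [AddCommGroup A']
    {χ : U →* Rˣ} {lam : R →+ A} {χ' : U' →* R'ˣ} {lam' : R' →+ A'}
    (φU : U →* U') (φ : R →+* R') (ψ : A →+ A')
    (h1 : ∀ u, χ' (φU u) = Units.map (φ : R →* R') (χ u))
    (h2 : ∀ r, ψ (lam r) = lam' (φ r)) : Heis χ lam →* Heis χ' lam' where
  toFun x := ⟨φU x.u, φ x.f, φ x.g, ψ x.a⟩
  map_one' := by ext <;> simp
  map_mul' x y := by
    ext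
    · simp
    · simp [h1]
    · simp only [mul_g, map_add, map_mul, h1]
      rw [← map_inv]
      simp
    · simp only [mul_a, map_add, map_mul, h1, h2]
      rw [← map_inv]
      simp

section Words

variable {G : Type} [Group G]

/-- `g` is a product of at most `n` elements of `S ∪ S⁻¹`. -/
def InBall (S : Set G) (n : ℕ) (g : G) : Prop :=
  ∃ l : List G, l.length ≤ n ∧ (∀ s ∈ l, s ∈ S ∨ s⁻¹ ∈ S) ∧ l.prod = g

lemma InBall.mono {S : Set G} {m n : ℕ} {g : G} (h : InBall S m g) (hmn : m ≤ n) :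
    InBall S n g := by
  obtain ⟨l, hl, hs, hp⟩ := h
  exact ⟨l, hl.trans hmn, hs, hp⟩

lemma InBall.one {S : Set G} : InBall S 0 1 := ⟨[], by simp, by simp, by simp⟩

lemma InBall.mul {S : Set G} {m n : ℕ} {g h : G} (hg : InBall S m g) (hh : InBall S n h) :
    InBall S (m + n) (g * h) := by
  obtain ⟨l, hl, hs, rfl⟩ := hg
  obtain ⟨l', hl', hs', rfl⟩ := hh
  refine ⟨l ++ l', by simp; omega, ?_, by simp⟩
  intro s hs0
  rcases List.mem_append.1 hs0 with h | h
  · exact hs s h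
  · exact hs' s h

lemma InBall.inv {S : Set G} {n : ℕ} {g : G} (hg : InBall S n g) : InBall S n g⁻¹ := by
  obtain ⟨l, hl, hs, rfl⟩ := hg
  refine ⟨(l.map (fun x => x⁻¹)).reverse, by simpa using hl, ?_, ?_⟩
  · intro s hs0
    simp only [List.mem_reverse, List.mem_map] at hs0
    obtain ⟨x, hx, rfl⟩ := hs0
    rcases hs x hx with h | h
    · right; simpa using h
    · left; exact h
  · rw [List.prod_inv_reverse]

lemma InBall.gen {S : Set G} {g : G} (hg : g ∈ S) : InBall S 1 g :=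
  ⟨[g], by simp, by simp [hg], by simp⟩

lemma InBall.mem_closure {S : Set G} {n : ℕ} {g : G} (hg : InBall S n g) :
    g ∈ Subgroup.closure S := by
  obtain ⟨l, -, hs, rfl⟩ := hg
  refine Subgroup.list_prod_mem _ ?_
  intro x hx
  rcases hs x hx with h | h
  · exact Subgroup.subset_closure h
  · have := (Subgroup.closure S).inv_mem (Subgroup.subset_closure h)
    simpa using this

/-- Word length of `g` with respect to `S`. -/
noncomputable def wordLength (S : Set G) (g : G) : ℕ :=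
  sInf {n : ℕ | ∃ l : List G, l.length = n ∧ (∀ s ∈ l, s ∈ S ∨ s⁻¹ ∈ S) ∧ l.prod = g}

lemma wordLength_le {S : Set G} {n : ℕ} {g : G} (h : InBall S n g) : wordLength S g ≤ n := by
  obtain ⟨l, hl, hs, hp⟩ := h
  have h1 : l.length ∈ {n : ℕ | ∃ l : List G, l.length = n ∧
      (∀ s ∈ l, s ∈ S ∨ s⁻¹ ∈ S) ∧ l.prod = g} := ⟨l, rfl, hs, hp⟩
  exact (Nat.sInf_le h1).trans hl

lemma exists_inBall {S : Set G} {g : G} (h : g ∈ Subgroup.closure S) : ∃ n, InBall S n g := by
  induction h using Subgroup.closure_induction with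
  | mem x hx => exact ⟨1, InBall.gen hx⟩
  | one => exact ⟨0, InBall.one⟩
  | mul x y _ _ hx hy =>
    obtain ⟨m, hm⟩ := hx
    obtain ⟨n, hn⟩ := hy
    exact ⟨m + n, hm.mul hn⟩
  | inv x _ hx =>
    obtain ⟨m, hm⟩ := hx
    exact ⟨m, hm.inv⟩

lemma inBall_of_wordLength_le {S : Set G} (hS : Subgroup.closure S = ⊤) {n : ℕ} {g : G}
    (h : wordLength S g ≤ n) : InBall S n g := by
  have hg : g ∈ Subgroup.closure S := by rw [hS]; trivial
  obtain ⟨m, l, hl, hs, hp⟩ := exists_inBall hg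
  have hne : {n : ℕ | ∃ l : List G, l.length = n ∧ (∀ s ∈ l, s ∈ S ∨ s⁻¹ ∈ S) ∧ l.prod = g}.Nonempty :=
    ⟨l.length, l, rfl, hs, hp⟩
  obtain ⟨l', hl', hs', hp'⟩ := Nat.sInf_mem hne
  exact ⟨l', by rw [hl']; exact h, hs', hp'⟩

/-- The depth of `g`: least index of a finite-index normal subgroup not containing `g`. -/
noncomputable def depth (g : G) : ℕ :=
  sInf {n : ℕ | ∃ N : Subgroup G, N.Normal ∧ N.FiniteIndex ∧ g ∉ N ∧ N.index = n}

lemma depth_le_of_hom {Q : Type} [Group Q] [Finite Q] (π : G →* Q) {g : G} (h : π g ≠ 1) :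
    depth g ≤ Nat.card Q := by
  have h1 : depth g ≤ π.ker.index := by
    refine Nat.sInf_le ⟨π.ker, inferInstance, inferInstance, ?_, rfl⟩
    simpa [MonoidHom.mem_ker] using h
  refine h1.trans ?_
  rw [Subgroup.index_ker]
  exact Nat.card_le_card_of_injective _ Subtype.coe_injective

/-- The residual finiteness growth function. -/
noncomputable def rfGrowth (S : Set G) (n : ℕ) : ℕ :=
  sSup {m : ℕ | ∃ g : G, g ≠ 1 ∧ wordLength S g ≤ n ∧ depth g = m}

end Words

open scoped LaurentPolynomial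

/-- Laurent polynomials over the field with two elements. -/
abbrev L : Type := LaurentPolynomial (ZMod 2)

lemma zmod2_cases (x : ZMod 2) : x = 0 ∨ x = 1 := by
  fin_cases x
  · left; rfl
  · right; rfl

/-- `Q i = 2 ^ (2 ^ i)` -/
def Q (i : ℕ) : ℕ := 2 ^ (2 ^ i)

lemma Q_pos (i : ℕ) : 0 < Q i := by unfold Q; positivity

lemma Q_succ (i : ℕ) : Q (i + 1) = Q i * Q i := by
  unfold Q; rw [← pow_add]; congr 1; rw [pow_succ]; ring

lemma two_le_Q (i : ℕ) : 2 ≤ Q i := by
  unfold Q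
  calc 2 = 2 ^ 1 := rfl
    _ ≤ 2 ^ (2 ^ i) := Nat.pow_le_pow_right (by norm_num) Nat.one_le_two_pow

lemma Q_mono {i j : ℕ} (h : i ≤ j) : Q i ≤ Q j := by
  unfold Q
  exact Nat.pow_le_pow_right (by norm_num) (Nat.pow_le_pow_right (by norm_num) h)

/-- `h i = 1 + X + ... + X ^ (Q i - 2)` -/
noncomputable def hp (i : ℕ) : (ZMod 2)[X] := ∑ k ∈ Finset.range (Q i - 1), X ^ k

/-- `g i = (X - 1) ^ (4 ^ i) * h i` -/
noncomputable def gp (i : ℕ) : (ZMod 2)[X] := (X - 1) ^ (4 ^ i) * hp i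

lemma hp_eval_one (i : ℕ) : (hp i).eval 1 = 1 := by
  unfold hp
  rw [eval_finsetSum]
  simp only [eval_pow, eval_X, one_pow, Finset.sum_const, Finset.card_range, nsmul_eq_mul, mul_one]
  have h1 : Q i - 1 + 1 = Q i := Nat.sub_add_cancel (Q_pos i)
  have h2 : ((Q i : ℕ) : ZMod 2) = 0 := by
    unfold Q
    push_cast
    have : (2 : ZMod 2) = 0 := rfl
    rw [this, zero_pow (by positivity)]
  have h3 : (((Q i - 1 : ℕ) : ZMod 2)) + 1 = 0 := by
    rw [← h2, ← h1]; push_cast; rfl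
  rcases zmod2_cases ((Q i - 1 : ℕ) : ZMod 2) with h | h
  · rw [h] at h3; exact absurd h3 (by decide)
  · exact h

lemma coprime_hp (i e : ℕ) : IsCoprime ((X - 1 : (ZMod 2)[X]) ^ e) (hp i) := by
  apply IsCoprime.pow_left
  have h1 : (X - 1 : (ZMod 2)[X]) = X - C 1 := by simp
  rw [h1, (irreducible_X_sub_C (1 : ZMod 2)).coprime_iff_not_dvd, dvd_iff_isRoot, IsRoot,
    hp_eval_one]
  exact one_ne_zero

lemma hp_natDegree_le (i : ℕ) : (hp i).natDegree ≤ Q i - 2 := by
  unfold hp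
  apply natDegree_sum_le_of_forall_le
  intro k hk
  rw [natDegree_X_pow]
  have := Finset.mem_range.1 hk
  omega

lemma X_sub_one_natDegree : (X - 1 : (ZMod 2)[X]).natDegree = 1 := by
  have h1 : (X - 1 : (ZMod 2)[X]) = X - C 1 := by simp
  rw [h1, natDegree_X_sub_C]

lemma gp_natDegree_le (i : ℕ) : (gp i).natDegree ≤ 4 ^ i + (Q i - 2) := by
  unfold gp
  refine natDegree_mul_le.trans (add_le_add ?_ (hp_natDegree_le i))
  refine natDegree_pow_le.trans ?_
  rw [X_sub_one_natDegree, mul_one]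

/-- The valuation argument. -/
lemma val_lemma (n : ℕ) (c : ℕ → (ZMod 2)[X]) (hc : ∀ i < n, (c i).natDegree ≤ 4 ^ i)
    (hd : (X - 1 : (ZMod 2)[X]) ^ (4 ^ n) ∣ ∑ i ∈ Finset.range n, gp i * c i) :
    ∀ i < n, c i = 0 := by
  intro i
  induction i using Nat.strong_induction_on with
  | _ i ih =>
    intro hi
    have h1 : (X - 1 : (ZMod 2)[X]) ^ (4 ^ (i + 1)) ∣ ∑ j ∈ Finset.range n, gp j * c j :=
      (pow_dvd_pow _ (Nat.pow_le_pow_right (by norm_num) hi)).trans hd
    have h2 : (X - 1 : (ZMod 2)[X]) ^ (4 ^ (i + 1)) ∣ gp i * c i := by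
      rw [← Finset.add_sum_erase _ _ (Finset.mem_range.2 hi)] at h1
      refine (dvd_add_left ?_).1 h1
      apply Finset.dvd_sum
      intro j hj
      rw [Finset.mem_erase, Finset.mem_range] at hj
      rcases lt_or_gt_of_ne hj.1 with h | h
      · rw [ih j h hj.2, mul_zero]; exact dvd_zero _
      · refine Dvd.dvd.mul_right ?_ _
        unfold gp
        exact Dvd.dvd.mul_right (pow_dvd_pow _ (Nat.pow_le_pow_right (by norm_num) h)) _
    have h3 : (X - 1 : (ZMod 2)[X]) ^ (3 * 4 ^ i) ∣ hp i * c i := by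
      have h4 : (4 : ℕ) ^ (i + 1) = 4 ^ i + 3 * 4 ^ i := by rw [pow_succ]; ring
      rw [h4, pow_add, gp, mul_assoc] at h2
      refine (mul_dvd_mul_iff_left ?_).1 h2
      apply pow_ne_zero
      intro h0
      have := X_sub_one_natDegree
      rw [h0] at this
      simp at this
    have h5 : (X - 1 : (ZMod 2)[X]) ^ (3 * 4 ^ i) ∣ c i := (coprime_hp i _).dvd_of_dvd_mul_left h3
    by_contra h6
    have h7 := natDegree_le_of_dvd h5 h6
    rw [natDegree_pow, X_sub_one_natDegree, mul_one] at h7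
    have h8 := hc i hi
    have h9 : 0 < 4 ^ i := by positivity
    omega

/-- The subgroup `M` of the Laurent polynomial ring. -/
noncomputable def MM : AddSubgroup L where
  carrier := {r | ∃ (n : ℕ) (c : ℕ → (ZMod 2)[X]), (∀ i, (c i).natDegree < 4 ^ i) ∧
    r = toLaurent (∑ i ∈ Finset.range n, gp i * c i)}
  zero_mem' := ⟨0, fun _ => 0, by intro i; simp, by simp⟩
  add_mem' := by
    rintro r s ⟨n, c, hc, rfl⟩ ⟨m, d, hd, rfl⟩
    refine ⟨max n m, fun i => (if i < n then c i else 0) + (if i < m then d i else 0), ?_, ?_⟩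
    · intro i
      refine lt_of_le_of_lt (natDegree_add_le _ _) (max_lt ?_ ?_)
      · split_ifs
        · exact hc i
        · simp
      · split_ifs
        · exact hd i
        · simp
    · rw [← map_add]
      congr 1
      simp only [mul_add, Finset.sum_add_distrib, mul_ite, mul_zero]
      congr 1
      · rw [← Finset.sum_filter]
        apply Finset.sum_congr _ (fun _ _ => rfl)
        ext i
        simp only [Finset.mem_filter, Finset.mem_range, lt_max_iff]
        tauto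
      · rw [← Finset.sum_filter]
        apply Finset.sum_congr _ (fun _ _ => rfl)
        ext i
        simp only [Finset.mem_filter, Finset.mem_range, lt_max_iff]
        tauto
  neg_mem' := by
    rintro r ⟨n, c, hc, rfl⟩
    refine ⟨n, fun i => - c i, fun i => by rw [natDegree_neg]; exact hc i, ?_⟩
    rw [← map_neg]
    congr 1
    rw [← Finset.sum_neg_distrib]
    exact Finset.sum_congr rfl (fun _ _ => by ring)

lemma mem_MM_iff (r : L) : r ∈ MM ↔ ∃ (n : ℕ) (c : ℕ → (ZMod 2)[X]),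
    (∀ i, (c i).natDegree < 4 ^ i) ∧ r = toLaurent (∑ i ∈ Finset.range n, gp i * c i) := Iff.rfl

/-- One may enlarge the number of terms. -/
lemma mem_MM_large {r : L} (hr : r ∈ MM) (m : ℕ) : ∃ (n : ℕ) (c : ℕ → (ZMod 2)[X]),
    m ≤ n ∧ (∀ i, (c i).natDegree < 4 ^ i) ∧
    r = toLaurent (∑ i ∈ Finset.range n, gp i * c i) := by
  obtain ⟨n, c, hc, rfl⟩ := hr
  refine ⟨max n m, fun i => if i < n then c i else 0, le_max_right _ _, ?_, ?_⟩
  · intro i
    show (if i < n then c i else 0).natDegree < _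
    split_ifs
    · exact hc i
    · simp
  · congr 1
    simp only [mul_ite, mul_zero]
    rw [← Finset.sum_filter]
    apply Finset.sum_congr _ (fun _ _ => rfl)
    ext i
    simp only [Finset.mem_filter, Finset.mem_range, lt_max_iff]
    tauto

lemma gp_mul_mem (i : ℕ) (w : (ZMod 2)[X]) (hw : w.natDegree < 4 ^ i) :
    toLaurent (gp i * w) ∈ MM := by
  refine ⟨i + 1, fun j => if j = i then w else 0, ?_, ?_⟩
  · intro j
    show (if j = i then w else 0).natDegree < _
    split_ifs with h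
    · rw [h]; exact hw
    · simp
  · congr 1
    simp [mul_ite, Finset.sum_ite_eq']

/-- the Laurent polynomials `T ^ (4 ^ i) * g i` do not belong to `M`. -/
lemma not_mem_MM (i : ℕ) : toLaurent (X ^ (4 ^ i) * gp i) ∉ MM := by
  intro h
  obtain ⟨n, c, hn, hc, h1⟩ := mem_MM_large h (i + 1)
  rw [toLaurent_inj] at h1
  have h2 := val_lemma n (fun j => if j = i then c i - X ^ (4 ^ i) else c j) (by
    intro j _
    show (if j = i then c i - X ^ (4 ^ i) else c j).natDegree ≤ _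
    split_ifs with hj
    · subst hj
      refine (natDegree_sub_le _ _).trans (max_le (hc j).le ?_)
      rw [natDegree_X_pow]
    · exact (hc j).le) (by
    have h3 : ∑ j ∈ Finset.range n, gp j * (if j = i then c i - X ^ (4 ^ i) else c j) = 0 := by
      have h4 : ∀ j ∈ Finset.range n, gp j * (if j = i then c i - X ^ (4 ^ i) else c j)
          = gp j * c j - (if j = i then X ^ (4 ^ i) * gp i else 0) := by
        intro j _
        split_ifs with hj
        · subst hj; ring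
        · ring
      rw [Finset.sum_congr rfl h4, Finset.sum_sub_distrib, Finset.sum_ite_eq',
        if_pos (Finset.mem_range.2 (by omega)), ← h1, sub_self]
    rw [h3]; exact dvd_zero _) i (by omega)
  simp only [if_true] at h2
  have h5 := hc i
  rw [sub_eq_zero.1 h2, natDegree_X_pow] at h5
  exact lt_irrefl _ h5

/-- The unit `T` of the Laurent polynomial ring. -/
noncomputable def tU : Lˣ :=
  ⟨LaurentPolynomial.T 1, LaurentPolynomial.T (-1),
    by rw [← LaurentPolynomial.T_add]; simp, by rw [← LaurentPolynomial.T_add]; simp⟩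

/-- The homomorphism `k ↦ T ^ k`. -/
noncomputable def chi : Multiplicative ℤ →* Lˣ := zpowersHom Lˣ tU

lemma tU_zpow (k : ℤ) : ((tU ^ k : Lˣ) : L) = LaurentPolynomial.T k := by
  induction k using Int.induction_on with
  | zero => simp
  | succ n ih =>
    rw [zpow_add_one, Units.val_mul, ih, LaurentPolynomial.T_add]; rfl
  | pred n ih =>
    rw [zpow_sub_one, Units.val_mul, ih, LaurentPolynomial.T_sub]; rfl

lemma chi_ofAdd (k : ℤ) : (chi (Multiplicative.ofAdd k) : L) = LaurentPolynomial.T k := by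
  rw [chi, zpowersHom_apply, toAdd_ofAdd, tU_zpow]

lemma chi_val (k : Multiplicative ℤ) : (chi k : L) = LaurentPolynomial.T k.toAdd := by
  rw [chi, zpowersHom_apply, tU_zpow]

lemma chi_inv_val (k : Multiplicative ℤ) : (((chi k)⁻¹ : Lˣ) : L) = LaurentPolynomial.T (-k.toAdd) := by
  rw [← map_inv, chi_val]; rfl

section Concrete

variable (M : AddSubgroup L)

/-- The group `G_M`. -/
abbrev GM : Type := Heis chi (QuotientAddGroup.mk' M)

/-- powers of the stable letter -/
noncomputable def D (k : ℤ) : GM M := ⟨Multiplicative.ofAdd k, 0, 0, 0⟩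
/-- first root subgroup -/
noncomputable def E12 (r : L) : GM M := ⟨1, r, 0, 0⟩
/-- second root subgroup -/
noncomputable def E23 (r : L) : GM M := ⟨1, 0, r, 0⟩
/-- the centre -/
noncomputable def E13 (a : L ⧸ M) : GM M := ⟨1, 0, 0, a⟩

/-- The generating set. -/
def gens : Set (GM M) := {D M 1, E12 M 1, E23 M 1}

lemma D_mul (j k : ℤ) : D M j * D M k = D M (j + k) := by
  ext <;> simp [D]

lemma D_neg (k : ℤ) : D M (-k) = (D M k)⁻¹ := by
  rw [eq_inv_iff_mul_eq_one, D_mul]; ext <;> simp [D]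

lemma E12_add (r s : L) : E12 M (r + s) = E12 M r * E12 M s := by
  ext <;> simp [E12]

lemma E23_add (r s : L) : E23 M (r + s) = E23 M r * E23 M s := by
  ext <;> simp [E23]

lemma E13_add (r s : L ⧸ M) : E13 M (r + s) = E13 M r * E13 M s := by
  ext <;> simp [E13]

lemma E12_conj (k : ℤ) (r : L) :
    D M k * E12 M r * (D M k)⁻¹ = E12 M (LaurentPolynomial.T k * r) := by
  rw [mul_inv_eq_iff_eq_mul]
  ext <;> simp [E12, D, chi_ofAdd]

lemma E23_conj (k : ℤ) (r : L) :
    (D M k)⁻¹ * E23 M r * D M k = E23 M (LaurentPolynomial.T k * r) := by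
  rw [mul_assoc, inv_mul_eq_iff_eq_mul]
  ext <;> simp [E23, D, ← mul_assoc, ← chi_ofAdd]

lemma comm_eq (r s : L) :
    E12 M r * E23 M s * (E12 M r)⁻¹ * (E23 M s)⁻¹ = E13 M (QuotientAddGroup.mk' M (r * s)) := by
  rw [mul_inv_eq_iff_eq_mul, mul_inv_eq_iff_eq_mul]
  ext <;> simp [E12, E23, E13]

lemma D_inBall (k : ℤ) : InBall (gens M) k.natAbs (D M k) := by
  have h1 : ∀ n : ℕ, InBall (gens M) n (D M n) := by
    intro n
    induction n with
    | zero =>
      have : D M ((0 : ℕ) : ℤ) = 1 := by ext <;> simp [D]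
      rw [this]; exact InBall.one
    | succ n ih =>
      have h2 : D M ((n + 1 : ℕ) : ℤ) = D M n * D M 1 := by rw [D_mul]; push_cast; rfl
      rw [h2]
      exact ih.mul (InBall.gen (by simp [gens]))
  obtain ⟨n, rfl | rfl⟩ := k.eq_nat_or_neg
  · simpa using h1 n
  · rw [D_neg]; simpa using (h1 n).inv

lemma E23_poly_inBall (d : ℕ) : ∀ p : (ZMod 2)[X], p.natDegree ≤ d →
    InBall (gens M) (3 * (d + 1)) (E23 M (toLaurent p)) := by
  have hc : ∀ c : ZMod 2, InBall (gens M) 1 (E23 M (toLaurent (C c))) := by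
    intro c
    rcases zmod2_cases c with rfl | rfl
    · have : E23 M (toLaurent (C 0 : (ZMod 2)[X])) = 1 := by ext <;> simp [E23]
      rw [this]; exact InBall.one.mono (by norm_num)
    · have : E23 M (toLaurent (C 1 : (ZMod 2)[X])) = E23 M 1 := by simp
      rw [this]; exact InBall.gen (by simp [gens])
  induction d with
  | zero =>
    intro p hp
    obtain ⟨c, rfl⟩ : ∃ c, p = C c := ⟨p.coeff 0, eq_C_of_natDegree_eq_zero (by omega)⟩
    exact (hc c).mono (by norm_num)
  | succ d ih =>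
    intro p hp
    have h1 := ih p.divX (by rw [natDegree_divX_eq_natDegree_tsub_one]; omega)
    have h2 : E23 M (toLaurent p) = E23 M (toLaurent (C (p.coeff 0))) *
        ((D M 1)⁻¹ * E23 M (toLaurent p.divX) * D M 1) := by
      rw [E23_conj, ← E23_add]
      congr 1
      conv_lhs => rw [← divX_mul_X_add p]
      rw [map_add, map_mul, toLaurent_X, mul_comm, add_comm]
    rw [h2]
    refine ((hc _).mul (((InBall.gen (by simp [gens])).inv.mul h1).mul
      (InBall.gen (by simp [gens])))).mono (by omega)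

lemma E13_poly_inBall (d : ℕ) (p : (ZMod 2)[X]) (hp : p.natDegree ≤ d) :
    InBall (gens M) (6 * (d + 1) + 2) (E13 M (QuotientAddGroup.mk' M (toLaurent p))) := by
  have h := comm_eq M 1 (toLaurent p)
  rw [one_mul] at h
  rw [← h]
  have h1 : InBall (gens M) 1 (E12 M 1) := InBall.gen (by simp [gens])
  have h2 := E23_poly_inBall M d p hp
  exact (((h1.mul h2).mul h1.inv).mul h2.inv).mono (by omega)

end Concrete

section

/-- `r` is supported in degrees between `-n` and `n`. -/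
def Bd (n : ℕ) (r : L) : Prop :=
  ∃ p : (ZMod 2)[X], p.natDegree ≤ 2 * n ∧ r = LaurentPolynomial.T (-(n : ℤ)) * toLaurent p

lemma Bd.zero (n : ℕ) : Bd n 0 := ⟨0, by simp, by simp⟩

lemma Bd.mono {m n : ℕ} {r : L} (h : Bd m r) (hmn : m ≤ n) : Bd n r := by
  obtain ⟨p, hp, rfl⟩ := h
  refine ⟨X ^ (n - m) * p, ?_, ?_⟩
  · refine natDegree_mul_le.trans ?_
    rw [natDegree_X_pow]; omega
  · rw [map_mul, toLaurent_X_pow, ← mul_assoc, ← LaurentPolynomial.T_add]
    congr 2
    omega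

lemma Bd.add {n : ℕ} {r s : L} (h : Bd n r) (h' : Bd n s) : Bd n (r + s) := by
  obtain ⟨p, hp, rfl⟩ := h
  obtain ⟨q, hq, rfl⟩ := h'
  exact ⟨p + q, (natDegree_add_le _ _).trans (max_le hp hq), by rw [map_add, mul_add]⟩

lemma Bd.neg {n : ℕ} {r : L} (h : Bd n r) : Bd n (-r) := by
  obtain ⟨p, hp, rfl⟩ := h
  exact ⟨-p, by rwa [natDegree_neg], by rw [map_neg, mul_neg]⟩

lemma Bd.mul {m n : ℕ} {r s : L} (h : Bd m r) (h' : Bd n s) : Bd (m + n) (r * s) := by
  obtain ⟨p, hp, rfl⟩ := h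
  obtain ⟨q, hq, rfl⟩ := h'
  refine ⟨p * q, natDegree_mul_le.trans (by omega), ?_⟩
  rw [map_mul]
  have : LaurentPolynomial.T (R := ZMod 2) (-((m + n : ℕ) : ℤ)) =
      LaurentPolynomial.T (-(m : ℤ)) * LaurentPolynomial.T (-(n : ℤ)) := by
    rw [← LaurentPolynomial.T_add]; congr 1; push_cast; ring
  rw [this]; ring

lemma Bd.T {n : ℕ} {k : ℤ} (h : k.natAbs ≤ n) : Bd n (LaurentPolynomial.T k) := by
  refine ⟨X ^ (k + n).toNat, ?_, ?_⟩
  · rw [natDegree_X_pow]; omega
  · rw [toLaurent_X_pow, ← LaurentPolynomial.T_add]; congr 1; omega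

lemma Bd.one (n : ℕ) : Bd n 1 := by
  have := Bd.T (n := n) (k := 0) (by simp)
  simpa using this

variable (M : AddSubgroup L)

lemma gen_bd (s : GM M) (hs : s ∈ gens M ∨ s⁻¹ ∈ gens M) :
    s.u.toAdd.natAbs ≤ 1 ∧ Bd 0 s.f ∧ Bd 0 s.g ∧ s.a = 0 := by
  have key : ∀ x : GM M, x ∈ gens M →
      (x.u.toAdd.natAbs ≤ 1 ∧ Bd 0 x.f ∧ Bd 0 x.g ∧ x.a = 0 ∧ x.f * x.g = 0) ∧
      (x.u = 1 ∨ (x.f = 0 ∧ x.g = 0)) := by
    intro x hx
    simp only [gens, Set.mem_insert_iff, Set.mem_singleton_iff] at hx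
    rcases hx with rfl | rfl | rfl
    · exact ⟨⟨by simp [D], Bd.zero 0, Bd.zero 0, rfl, by simp [D]⟩, Or.inr ⟨rfl, rfl⟩⟩
    · exact ⟨⟨by simp [E12], Bd.one 0, Bd.zero 0, rfl, by simp [E12]⟩, Or.inl rfl⟩
    · exact ⟨⟨by simp [E23], Bd.zero 0, Bd.one 0, rfl, by simp [E23]⟩, Or.inl rfl⟩
  rcases hs with hs | hs
  · have := (key s hs).1
    exact ⟨this.1, this.2.1, this.2.2.1, this.2.2.2.1⟩
  · obtain ⟨⟨h1, h2, h3, h4, h5⟩, h6⟩ := key _ hs
    have h7 : s = (s⁻¹)⁻¹ := (inv_inv s).symm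
    generalize s⁻¹ = x at h1 h2 h3 h4 h5 h6 h7
    subst h7
    refine ⟨by simpa using h1, ?_, ?_, ?_⟩
    · rcases h6 with h6 | h6
      · simpa [h6] using h2.neg
      · simpa [h6.1] using Bd.zero 0
    · rcases h6 with h6 | h6
      · simpa [h6] using h3.neg
      · simpa [h6.2] using Bd.zero 0
    · simp [h4, h5]

lemma list_bd (l : List (GM M)) (hl : ∀ s ∈ l, s ∈ gens M ∨ s⁻¹ ∈ gens M) :
    l.prod.u.toAdd.natAbs ≤ l.length ∧ Bd l.length l.prod.f ∧ Bd l.length l.prod.g ∧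
      ∃ b : L, Bd (2 * l.length) b ∧ l.prod.a = QuotientAddGroup.mk' M b := by
  induction l with
  | nil =>
    refine ⟨by simp, by simpa using Bd.zero 0, by simpa using Bd.zero 0, 0, Bd.zero _, by simp⟩
  | cons s l ih =>
    obtain ⟨h1, h2, h3, b, h4, h5⟩ := ih (fun x hx => hl x (List.mem_cons_of_mem _ hx))
    obtain ⟨g1, g2, g3, g4⟩ := gen_bd M s (hl s (List.mem_cons_self))
    simp only [List.prod_cons, List.length_cons]
    have k1 : Bd 1 ((chi s.u : Lˣ) : L) := by rw [chi_val]; exact Bd.T g1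
    have k2 : Bd 1 (((chi s.u)⁻¹ : Lˣ) : L) := by
      rw [chi_inv_val]; exact Bd.T (by simpa using g1)
    refine ⟨?_, ?_, ?_, b + s.f * ((((chi s.u)⁻¹ : Lˣ) : L) * l.prod.g), ?_, ?_⟩
    · rw [mul_u, toAdd_mul]
      exact (Int.natAbs_add_le _ _).trans (by omega)
    · rw [mul_f]
      exact (g2.mono (by omega)).add ((k1.mul h2).mono (by omega))
    · rw [mul_g]
      exact (g3.mono (by omega)).add ((k2.mul h3).mono (by omega))
    · exact (h4.mono (by omega)).add ((g2.mul (k2.mul h3)).mono (by omega))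
    · rw [mul_a, g4, h5, map_add, zero_add]

lemma ball_bd {n : ℕ} {x : GM M} (h : InBall (gens M) n x) :
    x.u.toAdd.natAbs ≤ n ∧ Bd n x.f ∧ Bd n x.g ∧
      ∃ b : L, Bd (2 * n) b ∧ x.a = QuotientAddGroup.mk' M b := by
  obtain ⟨l, hl, hs, rfl⟩ := h
  obtain ⟨h1, h2, h3, b, h4, h5⟩ := list_bd M l hs
  exact ⟨h1.trans hl, h2.mono hl, h3.mono hl, b, h4.mono (by omega), h5⟩

end

section

section Ev

variable {K : Type} [CommRing K] [Algebra (ZMod 2) K]

/-- Evaluation of Laurent polynomials at a unit. -/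
noncomputable def ev (x : Kˣ) : L →+* K := LaurentPolynomial.eval₂ (algebraMap (ZMod 2) K) x

lemma ev_T (x : Kˣ) (k : ℤ) : ev x (LaurentPolynomial.T k) = ((x ^ k : Kˣ) : K) :=
  LaurentPolynomial.eval₂_T _ _ _

lemma ev_toLaurent (x : Kˣ) (p : (ZMod 2)[X]) : ev x (toLaurent p) = aeval (x : K) p :=
  LaurentPolynomial.eval₂_toLaurent _ _ _

end Ev

/-- The local factor. -/
abbrev A1 (e : ℕ) : Type := AdjoinRoot ((X - 1 : (ZMod 2)[X]) ^ e)

lemma X_sub_one_monic : (X - 1 : (ZMod 2)[X]).Monic := by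
  have h1 : (X - 1 : (ZMod 2)[X]) = X - C 1 := by simp
  rw [h1]; exact monic_X_sub_C _

lemma coprime_X (e : ℕ) : IsCoprime (X : (ZMod 2)[X]) ((X - 1) ^ e) := by
  apply IsCoprime.pow_right
  exact ⟨1, -1, by ring⟩

lemma root_isUnit (e : ℕ) : IsUnit (AdjoinRoot.root ((X - 1 : (ZMod 2)[X]) ^ e)) := by
  obtain ⟨a, b, hab⟩ := coprime_X e
  have h := congrArg (AdjoinRoot.mk ((X - 1 : (ZMod 2)[X]) ^ e)) hab
  rw [map_add, map_mul, map_mul, AdjoinRoot.mk_self, mul_zero, add_zero, map_one,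
    AdjoinRoot.mk_X] at h
  exact IsUnit.of_mul_eq_one _ (by rw [mul_comm]; exact h)

/-- The root as a unit. -/
noncomputable def rU (e : ℕ) : (A1 e)ˣ := (root_isUnit e).unit

lemma ev_rU (e : ℕ) (p : (ZMod 2)[X]) :
    ev (rU e) (toLaurent p) = AdjoinRoot.mk ((X - 1 : (ZMod 2)[X]) ^ e) p := by
  rw [ev_toLaurent]
  have h1 : ((rU e : (A1 e)ˣ) : A1 e) = AdjoinRoot.root ((X - 1 : (ZMod 2)[X]) ^ e) :=
    IsUnit.unit_spec _
  rw [h1, AdjoinRoot.aeval_eq]

instance (e : ℕ) : Module.Finite (ZMod 2) (A1 e) :=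
  (AdjoinRoot.powerBasis' (X_sub_one_monic.pow e)).finite

instance (e : ℕ) : Finite (A1 e) := Module.finite_of_finite (ZMod 2)

lemma card_A1 (e : ℕ) : Nat.card (A1 e) = 2 ^ e := by
  rw [Module.natCard_eq_pow_finrank (K := ZMod 2) (V := A1 e),
    (AdjoinRoot.powerBasis' (X_sub_one_monic.pow e)).finrank,
    AdjoinRoot.powerBasis'_dim, natDegree_pow, X_sub_one_natDegree, mul_one, Nat.card_zmod]

/-- The residue field factor. -/
abbrev F1 (i : ℕ) : Type := GaloisField 2 (2 ^ (i + 1))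

instance (i : ℕ) : Finite (F1 i) := Module.finite_of_finite (ZMod 2)

lemma card_F1 (i : ℕ) : Nat.card (F1 i) = Q (i + 1) := by
  rw [GaloisField.card 2 _ (by positivity)]; rfl

/-- The finite ring detecting the elements. -/
abbrev RR (i : ℕ) : Type := A1 (4 ^ (i + 1)) × F1 i

lemma card_RR (i : ℕ) : Nat.card (RR i) = 2 ^ (4 ^ (i + 1)) * Q (i + 1) := by
  rw [Nat.card_prod, card_A1, card_F1]

/-- The unit of the detecting ring. -/
noncomputable def aU (i : ℕ) (α : (F1 i)ˣ) : (RR i)ˣ := MulEquiv.prodUnits.symm (rU _, α)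

/-- The homomorphism `Φ_α`. -/
noncomputable def Phi (i : ℕ) (α : (F1 i)ˣ) : L →+* RR i := (ev (rU _)).prod (ev α)

lemma Phi_T (i : ℕ) (α : (F1 i)ˣ) (k : ℤ) :
    Phi i α (LaurentPolynomial.T k) = ((aU i α ^ k : (RR i)ˣ) : RR i) := by
  have h1 : aU i α ^ k = MulEquiv.prodUnits.symm (rU _ ^ k, α ^ k) := by
    rw [aU, ← map_zpow]; rfl
  rw [h1]
  show (ev (rU _) (LaurentPolynomial.T k), ev α (LaurentPolynomial.T k)) = _
  rw [ev_T, ev_T]
  rfl

lemma card_units_ne_one (i : ℕ) : Nat.card {α : (F1 i)ˣ // α ≠ 1} = Q (i + 1) - 2 := by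
  classical
  have : Fintype (F1 i) := Fintype.ofFinite _
  have h1 : Nat.card (F1 i)ˣ = Q (i + 1) - 1 := by
    rw [Nat.card_units, card_F1]
  rw [Nat.card_eq_fintype_card, Fintype.card_subtype_compl, Fintype.card_subtype_eq,
    ← Nat.card_eq_fintype_card, h1]
  omega

/-- Root counting. -/
lemma root_count (i : ℕ) (p : (ZMod 2)[X]) (hd : p.natDegree < Q (i + 1) - 2)
    (h : ∀ α : (F1 i)ˣ, α ≠ 1 → aeval (α : F1 i) p = 0) : p = 0 := by
  classical
  by_contra hp
  have hinj : Function.Injective (algebraMap (ZMod 2) (F1 i)) := (algebraMap (ZMod 2) (F1 i)).injective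
  have hq : p.map (algebraMap (ZMod 2) (F1 i)) ≠ 0 := by
    rwa [Ne, Polynomial.map_eq_zero_iff hinj]
  let f : {α : (F1 i)ˣ // α ≠ 1} → {x : F1 i // x ∈ (p.map (algebraMap (ZMod 2) (F1 i))).roots.toFinset} :=
    fun α => ⟨(α.1 : F1 i), by
      rw [Multiset.mem_toFinset, mem_roots hq, IsRoot, eval_map_algebraMap]
      exact h α.1 α.2⟩
  have hf : Function.Injective f := by
    intro a b hab
    apply Subtype.ext
    apply Units.ext
    exact congrArg Subtype.val hab
  have h1 := Nat.card_le_card_of_injective f hf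
  rw [card_units_ne_one, Nat.card_eq_fintype_card, Fintype.card_coe] at h1
  have h2 := (Multiset.toFinset_card_le (p.map (algebraMap (ZMod 2) (F1 i))).roots).trans
    (card_roots' _)
  rw [natDegree_map] at h2
  omega

lemma detect_nonzero (i m : ℕ) (hm : 2 * m < Q (i + 1) - 2) (r : L) (hr : Bd m r) (h0 : r ≠ 0) :
    ∃ α : (F1 i)ˣ, Phi i α r ≠ 0 := by
  obtain ⟨p, hp, rfl⟩ := hr
  by_contra hcon
  push Not at hcon
  have : p = 0 := by
    apply root_count i p (by omega)
    intro α _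
    have h1 := congrArg Prod.snd (hcon α)
    change ev α (LaurentPolynomial.T (-(m : ℤ)) * toLaurent p) = 0 at h1
    rw [map_mul, ev_T, ev_toLaurent] at h1
    exact (Units.mul_right_eq_zero _).1 h1
  exact h0 (by rw [this]; simp)

lemma geom_zero (i j : ℕ) (hij : i < j) (α : (F1 i)ˣ) : aeval (α : F1 i) (gp j) = 0 := by
  have hcard : (α : F1 i) ^ Q (i + 1) = α := by
    have : Fintype (F1 i) := Fintype.ofFinite _
    rw [← card_F1, Nat.card_eq_fintype_card]
    exact FiniteField.pow_card _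
  have h1 : ∀ k, (α : F1 i) ^ Q (i + 1 + k) = α := by
    intro k
    induction k with
    | zero => exact hcard
    | succ k ih =>
      rw [← add_assoc, Q_succ, pow_mul, ih, ih]
  obtain ⟨k, rfl⟩ : ∃ k, j = i + 1 + k := ⟨j - (i + 1), by omega⟩
  have h2 := h1 k
  have h3 : (α : F1 i) ^ (Q (i + 1 + k) - 1) = 1 := by
    have h4 : Q (i + 1 + k) = Q (i + 1 + k) - 1 + 1 := (Nat.sub_add_cancel (Q_pos _)).symm
    rw [h4, pow_succ] at h2
    have h5 : (α : F1 i) ≠ 0 := α.ne_zero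
    exact mul_right_cancel₀ h5 (by rw [h2, one_mul])
  have h5 : ((α : F1 i) - 1) * aeval (α : F1 i) (hp (i + 1 + k)) = 0 := by
    unfold hp
    rw [map_sum]
    simp only [map_pow, aeval_X]
    rw [mul_comm, geom_sum_mul, h3, sub_self]
  unfold gp
  have h6 : (4 : ℕ) ^ (i + 1 + k) = (4 ^ (i + 1 + k) - 1) + 1 :=
    (Nat.sub_add_cancel (Nat.one_le_pow _ _ (by norm_num))).symm
  rw [h6, pow_succ (X - 1 : (ZMod 2)[X]), mul_assoc, map_mul (aeval (α : F1 i)),
    map_mul (aeval (α : F1 i))]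
  have h7 : aeval (α : F1 i) (X - 1 : (ZMod 2)[X]) = (α : F1 i) - 1 := by
    rw [map_sub, aeval_X, map_one]
  rw [h7, h5, mul_zero]

lemma Phi_sum (i n : ℕ) (hn : i + 1 ≤ n) (c : ℕ → (ZMod 2)[X]) (α : (F1 i)ˣ) :
    Phi i α (toLaurent (∑ j ∈ Finset.range n, gp j * c j)) =
      Phi i α (toLaurent (∑ j ∈ Finset.range (i + 1), gp j * c j)) := by
  obtain ⟨k, rfl⟩ : ∃ k, n = i + 1 + k := ⟨n - (i + 1), by omega⟩
  rw [Finset.sum_range_add, map_add, map_add]
  convert add_zero _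
  rw [map_sum, map_sum]
  apply Finset.sum_eq_zero
  intro x _
  rw [map_mul, map_mul]
  have h1 : Phi i α (toLaurent (gp (i + 1 + x))) = 0 := by
    apply Prod.ext
    · change ev (rU _) (toLaurent (gp (i + 1 + x))) = 0
      rw [ev_rU, AdjoinRoot.mk_eq_zero]
      unfold gp
      exact Dvd.dvd.mul_right (pow_dvd_pow _ (Nat.pow_le_pow_right (by norm_num) (by omega))) _
    · change ev α (toLaurent (gp (i + 1 + x))) = 0
      rw [ev_toLaurent]
      exact geom_zero i _ (by omega) α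
  rw [h1, zero_mul]

lemma detect_centre (i n : ℕ) (h1 : 4 * n + 2 < Q (i + 1))
    (h2 : 2 * n + 2 * 4 ^ i + Q i + 2 < Q (i + 1)) (b : L) (hb : Bd (2 * n) b) (hbM : b ∉ MM) :
    ∃ α : (F1 i)ˣ, ∀ m ∈ MM, Phi i α b ≠ Phi i α m := by
  classical
  obtain ⟨p, hp, rfl⟩ := hb
  by_contra hcon
  push Not at hcon
  -- normalise the witnesses
  have h3 : ∀ α : (F1 i)ˣ, ∃ c : ℕ → (ZMod 2)[X], (∀ j, (c j).natDegree < 4 ^ j) ∧
      Phi i α (toLaurent p) =
        Phi i α (toLaurent (X ^ (2 * n) * ∑ j ∈ Finset.range (i + 1), gp j * c j)) := by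
    intro α
    obtain ⟨m, hm, hm'⟩ := hcon α
    obtain ⟨N, c, hN, hc, rfl⟩ := mem_MM_large hm (i + 1)
    refine ⟨c, hc, ?_⟩
    rw [Phi_sum i N hN] at hm'
    rw [map_mul toLaurent, map_mul, ← hm', ← map_mul, toLaurent_X_pow, ← mul_assoc,
      ← LaurentPolynomial.T_add]
    congr 1
    have : ((2 * n : ℕ) : ℤ) + -((2 * n : ℕ) : ℤ) = 0 := by ring
    rw [this, LaurentPolynomial.T_zero, one_mul]
  choose c hc hc' using h3
  -- uniqueness
  have h4 : ∀ α β : (F1 i)ˣ, ∀ j < i + 1, c α j - c β j = 0 := by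
    intro α β
    apply val_lemma (i + 1) (fun j => c α j - c β j)
    · intro j _
      exact (natDegree_sub_le _ _).trans (max_le (hc α j).le (hc β j).le)
    · have g1 := congrArg Prod.fst (hc' α)
      have g2 := congrArg Prod.fst (hc' β)
      change ev (rU _) _ = ev (rU _) _ at g1
      change ev (rU _) _ = ev (rU _) _ at g2
      rw [ev_rU, ev_rU] at g1 g2
      rw [g1] at g2
      have g3 := AdjoinRoot.mk_eq_mk.1 g2
      have g4 : X ^ (2 * n) * ∑ j ∈ Finset.range (i + 1), gp j * c α j -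
          X ^ (2 * n) * ∑ j ∈ Finset.range (i + 1), gp j * c β j =
          X ^ (2 * n) * ∑ j ∈ Finset.range (i + 1), gp j * (c α j - c β j) := by
        rw [← mul_sub, ← Finset.sum_sub_distrib]
        congr 1
        exact Finset.sum_congr rfl (fun _ _ => by ring)
      rw [g4] at g3
      exact ((coprime_X _).symm.pow_right).dvd_of_dvd_mul_left g3
  -- conclude
  set S : (ZMod 2)[X] := ∑ j ∈ Finset.range (i + 1), gp j * c 1 j with hS
  have h5 : ∀ α : (F1 i)ˣ, ∑ j ∈ Finset.range (i + 1), gp j * c α j = S := by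
    intro α
    apply Finset.sum_congr rfl
    intro j hj
    rw [sub_eq_zero.1 (h4 α 1 j (Finset.mem_range.1 hj))]
  have hSd : S.natDegree ≤ 2 * 4 ^ i + Q i := by
    apply natDegree_sum_le_of_forall_le
    intro j hj
    have hj' : j ≤ i := by have := Finset.mem_range.1 hj; omega
    refine natDegree_mul_le.trans ?_
    have k1 := gp_natDegree_le j
    have k2 := hc 1 j
    have k3 : 4 ^ j ≤ 4 ^ i := Nat.pow_le_pow_right (by norm_num) hj'
    have k4 := Q_mono hj'
    have k5 := two_le_Q j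
    omega
  have h6 : p - X ^ (2 * n) * S = 0 := by
    apply root_count i
    · refine lt_of_le_of_lt (natDegree_sub_le _ _) (max_lt (by omega) ?_)
      refine lt_of_le_of_lt natDegree_mul_le ?_
      rw [natDegree_X_pow]
      omega
    · intro α _
      have g1 := congrArg Prod.snd (hc' α)
      change ev α _ = ev α _ at g1
      rw [ev_toLaurent, ev_toLaurent, h5] at g1
      rw [map_sub, g1, sub_self]
  apply hbM
  rw [sub_eq_zero.1 h6, map_mul, toLaurent_X_pow, ← mul_assoc, ← LaurentPolynomial.T_add]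
  have : -((2 * n : ℕ) : ℤ) + ((2 * n : ℕ) : ℤ) = 0 := by ring
  rw [this, LaurentPolynomial.T_zero, one_mul]
  exact ⟨i + 1, c 1, hc 1, rfl⟩

end

section

section CardHeis

variable {U R A : Type} [CommGroup U] [CommRing R] [AddCommGroup A]
  (χ : U →* Rˣ) (lam : R →+ A)

lemma heis_inj : Function.Injective (fun x : Heis χ lam => (x.u, x.f, x.g, x.a)) := by
  intro x y h
  simp only [Prod.mk.injEq] at h
  exact Heis.ext h.1 h.2.1 h.2.2.1 h.2.2.2

instance [Finite U] [Finite R] [Finite A] : Finite (Heis χ lam) :=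
  Finite.of_injective _ (heis_inj χ lam)

lemma card_heis_le (N : AddSubgroup R) [Finite R] :
    Nat.card (Heis (MonoidHom.id Rˣ) (QuotientAddGroup.mk' N)) ≤ Nat.card R ^ 4 := by
  have h1 := Nat.card_le_card_of_injective _ (heis_inj (MonoidHom.id Rˣ) (QuotientAddGroup.mk' N))
  rw [Nat.card_prod, Nat.card_prod, Nat.card_prod] at h1
  have h2 : Nat.card Rˣ ≤ Nat.card R := Nat.card_le_card_of_injective _ Units.val_injective
  have h3 : Nat.card (R ⧸ N) ≤ Nat.card R :=
    Nat.card_le_card_of_surjective _ (QuotientAddGroup.mk'_surjective N)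
  calc _ ≤ _ := h1
    _ ≤ Nat.card R * (Nat.card R * (Nat.card R * Nat.card R)) := by gcongr
    _ = _ := by ring

end CardHeis

/-- The finite quotient of `G_M`. -/
noncomputable def quo (i : ℕ) (α : (F1 i)ˣ) :
    GM MM →* Heis (MonoidHom.id (RR i)ˣ)
      (QuotientAddGroup.mk' (MM.map (Phi i α).toAddMonoidHom)) :=
  Heis.map (zpowersHom (RR i)ˣ (aU i α)) (Phi i α)
    (QuotientAddGroup.map MM (MM.map (Phi i α).toAddMonoidHom) (Phi i α).toAddMonoidHom
      (AddSubgroup.le_comap_map _ _))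
    (by
      intro u
      apply Units.ext
      rw [MonoidHom.id_apply, zpowersHom_apply, Units.coe_map, chi_val]
      exact (Phi_T i α _).symm)
    (fun r => rfl)

lemma detect (i n : ℕ) (h1 : 4 * n + 2 < Q (i + 1))
    (h2 : 2 * n + 2 * 4 ^ i + Q i + 2 < Q (i + 1)) (x : GM MM) (hx : InBall (gens MM) n x)
    (hx1 : x ≠ 1) : ∃ α : (F1 i)ˣ, quo i α x ≠ 1 := by
  obtain ⟨b1, b2, b3, b, b4, b5⟩ := ball_bd MM hx
  by_cases hu : x.u = 1
  · by_cases hf : x.f = 0
    · by_cases hg : x.g = 0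
      · have ha : x.a ≠ 0 := by
          intro ha
          apply hx1
          ext <;> simp [hu, hf, hg, ha]
        have hb : b ∉ MM := by
          intro hb
          apply ha
          rw [b5]
          exact (QuotientAddGroup.eq_zero_iff b).2 hb
        obtain ⟨α, hα⟩ := detect_centre i n h1 h2 b b4 hb
        refine ⟨α, fun h => ?_⟩
        have h3 := congrArg Heis.a h
        change QuotientAddGroup.map _ _ _ _ x.a = 0 at h3
        rw [b5] at h3
        change QuotientAddGroup.mk' _ (Phi i α b) = 0 at h3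
        rw [QuotientAddGroup.mk'_apply, QuotientAddGroup.eq_zero_iff] at h3
        obtain ⟨m, hm, hm'⟩ := h3
        exact hα m hm hm'.symm
      · obtain ⟨α, hα⟩ := detect_nonzero i n (by omega) x.g b3 hg
        exact ⟨α, fun h => hα (congrArg Heis.g h)⟩
    · obtain ⟨α, hα⟩ := detect_nonzero i n (by omega) x.f b2 hf
      exact ⟨α, fun h => hα (congrArg Heis.f h)⟩
  · have h3 : LaurentPolynomial.T x.u.toAdd - 1 ≠ (0 : L) := by
      intro h
      apply hu
      have h4 : LaurentPolynomial.T x.u.toAdd = (LaurentPolynomial.T 0 : L) := by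
        rw [sub_eq_zero.1 h]; simp
      have h5 : x.u.toAdd = 0 := by
        have h6 := congrArg (fun r : L => r.coeff x.u.toAdd) h4
        by_contra hne
        change (LaurentPolynomial.T x.u.toAdd : L).coeff x.u.toAdd =
          (LaurentPolynomial.T 0 : L).coeff x.u.toAdd at h6
        rw [LaurentPolynomial.T_apply, LaurentPolynomial.T_apply, if_pos rfl,
          if_neg (Ne.symm hne)] at h6
        exact one_ne_zero h6
      exact h5
    obtain ⟨α, hα⟩ := detect_nonzero i n (by omega) _ ((Bd.T b1).add (Bd.one n).neg) (by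
      rwa [← sub_eq_add_neg])
    refine ⟨α, fun h => hα ?_⟩
    have h4 := congrArg Heis.u h
    change zpowersHom (RR i)ˣ (aU i α) x.u = 1 at h4
    rw [zpowersHom_apply] at h4
    rw [map_add, Phi_T, h4, map_neg, map_one, Units.val_one, add_neg_cancel]

lemma depth_le (i n : ℕ) (h1 : 4 * n + 2 < Q (i + 1))
    (h2 : 2 * n + 2 * 4 ^ i + Q i + 2 < Q (i + 1)) (x : GM MM) (hx : InBall (gens MM) n x)
    (hx1 : x ≠ 1) : depth x ≤ (2 ^ (4 ^ (i + 1)) * Q (i + 1)) ^ 4 := by
  obtain ⟨α, hα⟩ := detect i n h1 h2 x hx hx1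
  refine (depth_le_of_hom (quo i α) hα).trans ?_
  refine (card_heis_le _).trans ?_
  rw [card_RR]

end

section

/-- The deep central elements. -/
noncomputable def zz (i : ℕ) : GM MM :=
  E13 MM (QuotientAddGroup.mk' MM (toLaurent (X ^ (4 ^ i) * gp i)))

lemma zz_ne_one (i : ℕ) : zz i ≠ 1 := by
  intro h
  apply not_mem_MM i
  have h1 := congrArg Heis.a h
  change QuotientAddGroup.mk' MM (toLaurent (X ^ (4 ^ i) * gp i)) = 0 at h1
  rwa [QuotientAddGroup.mk'_apply, QuotientAddGroup.eq_zero_iff] at h1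

lemma four_pow_le_Q (i : ℕ) : 4 ^ i ≤ Q i := by
  unfold Q
  have h1 : (4 : ℕ) ^ i = 2 ^ (2 * i) := by rw [pow_mul]; norm_num
  rw [h1]
  apply Nat.pow_le_pow_right (by norm_num)
  induction i with
  | zero => simp
  | succ i ih =>
    rcases Nat.eq_zero_or_pos i with rfl | hi
    · norm_num
    · have h2 : 2 ≤ 2 ^ i := by
        calc 2 = 2 ^ 1 := rfl
          _ ≤ 2 ^ i := Nat.pow_le_pow_right (by norm_num) hi
      have h3 : (4 : ℕ) ^ i = 2 ^ (2 * i) := by rw [pow_mul]; norm_num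
      have := ih h3
      rw [pow_succ 2 i]; omega

lemma zz_inBall (i : ℕ) : InBall (gens MM) (18 * Q i) (zz i) := by
  have h1 : (X ^ (4 ^ i) * gp i).natDegree ≤ 4 ^ i + (4 ^ i + (Q i - 2)) := by
    refine natDegree_mul_le.trans ?_
    rw [natDegree_X_pow]
    have := gp_natDegree_le i
    omega
  refine (E13_poly_inBall MM _ _ h1).mono ?_
  have h2 := four_pow_le_Q i
  have h3 := two_le_Q i
  omega

lemma E13_mem {N : Subgroup (GM MM)} (hN : N.Normal) {r : L} (hr : E12 MM r ∈ N) (s : L) :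
    E13 MM (QuotientAddGroup.mk' MM (r * s)) ∈ N := by
  rw [← comm_eq, mul_assoc (E12 MM r), mul_assoc (E12 MM r)]
  exact N.mul_mem hr (hN.conj_mem _ (N.inv_mem hr) _)

lemma index_lower (i : ℕ) (N : Subgroup (GM MM)) (hN : N.Normal) (hfi : N.FiniteIndex)
    (h : zz i ∉ N) : 2 ^ (4 ^ i + 1) ≤ N.index := by
  by_contra hlt
  push Not at hlt
  have hfin : Finite (GM MM ⧸ N) := inferInstance
  have hcard : Nat.card (degreeLT (ZMod 2) (4 ^ i + 1)) = 2 ^ (4 ^ i + 1) := by
    rw [Nat.card_congr (degreeLTEquiv (ZMod 2) (4 ^ i + 1)).toEquiv]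
    simp
  have hfin2 : Finite (degreeLT (ZMod 2) (4 ^ i + 1)) :=
    Finite.of_equiv _ (degreeLTEquiv (ZMod 2) (4 ^ i + 1)).toEquiv.symm
  let f : degreeLT (ZMod 2) (4 ^ i + 1) → GM MM ⧸ N :=
    fun p => QuotientGroup.mk (E12 MM (toLaurent p.1))
  have hf : ¬ Function.Injective f := by
    intro hf
    have h1 := Nat.card_le_card_of_injective f hf
    rw [hcard] at h1
    exact absurd hlt (not_lt.2 h1)
  rw [Function.Injective] at hf
  push Not at hf
  obtain ⟨p, q, hpq, hne⟩ := hf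
  have h1 : E12 MM (toLaurent (q.1 - p.1)) ∈ N := by
    have h2 := QuotientGroup.eq.1 hpq
    have h3 : (E12 MM (toLaurent p.1))⁻¹ * E12 MM (toLaurent q.1) =
        E12 MM (toLaurent (q.1 - p.1)) := by
      rw [inv_mul_eq_iff_eq_mul, ← E12_add, ← map_add]
      congr 2; ring
    rwa [h3] at h2
  have h2 : q.1 - p.1 ≠ 0 := by
    intro h3
    exact hne (Subtype.ext (sub_eq_zero.1 h3).symm)
  have h3 : q.1 - p.1 ∈ degreeLT (ZMod 2) (4 ^ i + 1) := Submodule.sub_mem _ q.2 p.2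
  generalize q.1 - p.1 = r at h1 h2 h3
  have h4 : r.natDegree ≤ 4 ^ i := by
    rw [mem_degreeLT] at h3
    have := (natDegree_lt_iff_degree_lt h2).2 h3
    omega
  have h5 : r.Monic := by
    rw [Monic]
    rcases zmod2_cases r.leadingCoeff with h | h
    · exact absurd (leadingCoeff_eq_zero.1 h) h2
    · exact h
  set w : (ZMod 2)[X] := X ^ (4 ^ i - r.natDegree) * r - X ^ (4 ^ i) with hw
  have h6 : w.natDegree < 4 ^ i := by
    have h7 : (X ^ (4 ^ i - r.natDegree) * r).natDegree = 4 ^ i := by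
      rw [Monic.natDegree_mul (monic_X_pow _) h5, natDegree_X_pow]; omega
    have h8 : (X ^ (4 ^ i - r.natDegree) * r).Monic := (monic_X_pow _).mul h5
    have h9 : w.degree < (X ^ (4 ^ i - r.natDegree) * r).degree := by
      apply degree_sub_lt_left
      · rw [degree_eq_natDegree h8.ne_zero, h7, degree_X_pow]
      · exact h8.ne_zero
      · rw [h8.leadingCoeff, (monic_X_pow _).leadingCoeff]
    rcases eq_or_ne w 0 with h0 | h0
    · rw [h0, natDegree_zero]; positivity
    · rw [degree_eq_natDegree h0, degree_eq_natDegree h8.ne_zero, h7] at h9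
      exact_mod_cast h9
  apply h
  have h7 := E13_mem hN h1 (toLaurent (X ^ (4 ^ i - r.natDegree) * gp i))
  have h8 : QuotientAddGroup.mk' MM (toLaurent r * toLaurent (X ^ (4 ^ i - r.natDegree) * gp i)) =
      QuotientAddGroup.mk' MM (toLaurent (X ^ (4 ^ i) * gp i)) := by
    rw [← map_mul]
    have h9 : r * (X ^ (4 ^ i - r.natDegree) * gp i) = X ^ (4 ^ i) * gp i + gp i * w := by
      rw [hw]; ring
    rw [h9, map_add toLaurent, map_add]
    have h10 : QuotientAddGroup.mk' MM (toLaurent (gp i * w)) = 0 := by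
      rw [QuotientAddGroup.mk'_apply, QuotientAddGroup.eq_zero_iff]
      exact gp_mul_mem i w h6
    rw [h10, add_zero]
  rw [h8] at h7
  exact h7

end

section

lemma closure_gens (M : AddSubgroup L) : Subgroup.closure (gens M) = ⊤ := by
  rw [eq_top_iff]
  intro x _
  have hD : ∀ k : ℤ, D M k ∈ Subgroup.closure (gens M) := fun k => (D_inBall M k).mem_closure
  have h12 : ∀ r : L, E12 M r ∈ Subgroup.closure (gens M) := by
    intro r
    induction r using LaurentPolynomial.induction_on' with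
    | add p q hp hq => rw [E12_add]; exact mul_mem hp hq
    | C_mul_T n a =>
      rcases zmod2_cases a with rfl | rfl
      · have : E12 M (LaurentPolynomial.C 0 * LaurentPolynomial.T n) = 1 := by
          ext <;> simp [E12]
        rw [this]; exact one_mem _
      · have : E12 M (LaurentPolynomial.C 1 * LaurentPolynomial.T n) =
            D M n * E12 M 1 * (D M n)⁻¹ := by
          rw [E12_conj]; simp
        rw [this]
        exact mul_mem (mul_mem (hD n) (Subgroup.subset_closure (by simp [gens])))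
          (inv_mem (hD n))
  have h23 : ∀ r : L, E23 M r ∈ Subgroup.closure (gens M) := by
    intro r
    induction r using LaurentPolynomial.induction_on' with
    | add p q hp hq => rw [E23_add]; exact mul_mem hp hq
    | C_mul_T n a =>
      rcases zmod2_cases a with rfl | rfl
      · have : E23 M (LaurentPolynomial.C 0 * LaurentPolynomial.T n) = 1 := by
          ext <;> simp [E23]
        rw [this]; exact one_mem _
      · have : E23 M (LaurentPolynomial.C 1 * LaurentPolynomial.T n) =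
            (D M n)⁻¹ * E23 M 1 * D M n := by
          rw [E23_conj]; simp
        rw [this]
        exact mul_mem (mul_mem (inv_mem (hD n)) (Subgroup.subset_closure (by simp [gens])))
          (hD n)
  have h13 : ∀ a : L ⧸ M, E13 M a ∈ Subgroup.closure (gens M) := by
    intro a
    obtain ⟨r, rfl⟩ := QuotientAddGroup.mk'_surjective M a
    have h := comm_eq M 1 r
    rw [one_mul] at h
    rw [← h]
    exact mul_mem (mul_mem (mul_mem (h12 _) (h23 _)) (inv_mem (h12 _))) (inv_mem (h23 _))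
  have hx : x = E13 M (x.a - QuotientAddGroup.mk' M (x.f * x.g)) *
      (E12 M x.f * E23 M x.g * D M x.u.toAdd) := by
    ext <;> simp [E12, E13, E23, D]
  rw [hx]
  exact mul_mem (h13 _) (mul_mem (mul_mem (h12 _) (h23 _)) (hD _))

/-- the index used for the upper bound -/
lemma index_conditions (i n : ℕ) (hn : 8 * n + 24 ≤ Q i) :
    4 * n + 2 < Q (i + 1) ∧ 2 * n + 2 * 4 ^ i + Q i + 2 < Q (i + 1) := by
  have h1 := four_pow_le_Q i
  have h2 : 24 * Q i ≤ Q (i + 1) := by
    rw [Q_succ]; exact Nat.mul_le_mul_right _ (by omega)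
  constructor <;> omega

lemma exists_index (n : ℕ) : ∃ i, 8 * n + 24 ≤ Q i := by
  refine ⟨8 * n + 24, ?_⟩
  unfold Q
  exact (Nat.lt_two_pow_self.le).trans (Nat.lt_two_pow_self.le)

lemma exists_finite_quotient (x : GM MM) (hx : x ≠ 1) :
    ∃ N : Subgroup (GM MM), N.Normal ∧ N.FiniteIndex ∧ x ∉ N := by
  obtain ⟨n, hn⟩ := exists_inBall (S := gens MM) (g := x) (by rw [closure_gens]; trivial)
  obtain ⟨i, hi⟩ := exists_index n
  obtain ⟨h1, h2⟩ := index_conditions i n hi
  obtain ⟨α, hα⟩ := detect i n h1 h2 x hn hx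
  exact ⟨(quo i α).ker, inferInstance, inferInstance, by rwa [MonoidHom.mem_ker]⟩

lemma le_depth {x : GM MM} (hx : x ≠ 1) {m : ℕ}
    (h : ∀ N : Subgroup (GM MM), N.Normal → N.FiniteIndex → x ∉ N → m ≤ N.index) :
    m ≤ depth x := by
  obtain ⟨N, h1, h2, h3⟩ := exists_finite_quotient x hx
  have hne : {n : ℕ | ∃ N : Subgroup (GM MM), N.Normal ∧ N.FiniteIndex ∧ x ∉ N ∧
      N.index = n}.Nonempty := ⟨N.index, N, h1, h2, h3, rfl⟩
  obtain ⟨N', h1', h2', h3', h4'⟩ := Nat.sInf_mem hne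
  rw [depth, ← h4']
  exact h N' h1' h2' h3'

lemma growth_le (i n : ℕ) (hn : 8 * n + 24 ≤ Q i) :
    ∀ m ∈ {m : ℕ | ∃ g : GM MM, g ≠ 1 ∧ wordLength (gens MM) g ≤ n ∧ depth g = m},
      m ≤ (2 ^ (4 ^ (i + 1)) * Q (i + 1)) ^ 4 := by
  rintro m ⟨g, hg, hgn, rfl⟩
  obtain ⟨h1, h2⟩ := index_conditions i n hn
  exact depth_le i n h1 h2 g (inBall_of_wordLength_le (closure_gens MM) hgn) hg

lemma growth_bdd (n : ℕ) :
    BddAbove {m : ℕ | ∃ g : GM MM, g ≠ 1 ∧ wordLength (gens MM) g ≤ n ∧ depth g = m} := by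
  obtain ⟨i, hi⟩ := exists_index n
  exact ⟨_, growth_le i n hi⟩

lemma rfGrowth_le (i n : ℕ) (hn : 8 * n + 24 ≤ Q i) :
    rfGrowth (gens MM) n ≤ (2 ^ (4 ^ (i + 1)) * Q (i + 1)) ^ 4 :=
  csSup_le' (growth_le i n hn)

lemma le_rfGrowth {n : ℕ} {g : GM MM} (hg : g ≠ 1) (hb : InBall (gens MM) n g) :
    depth g ≤ rfGrowth (gens MM) n :=
  le_csSup (growth_bdd n) ⟨g, hg, wordLength_le hb, rfl⟩

lemma rfGrowth_ge (i n : ℕ) (hn : 18 * Q i ≤ n) : 2 ^ (4 ^ i + 1) ≤ rfGrowth (gens MM) n := by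
  refine le_trans ?_ (le_rfGrowth (zz_ne_one i) ((zz_inBall i).mono hn))
  exact le_depth (zz_ne_one i) (fun N h1 h2 h3 => index_lower i N h1 h2 h3)

lemma rfGrowth_ge_two (n : ℕ) (hn : 1 ≤ n) : 2 ≤ rfGrowth (gens MM) n := by
  have h1 : E12 MM 1 ≠ 1 := by
    intro h
    have h2 := congrArg Heis.f h
    change (1 : L) = 0 at h2
    exact one_ne_zero h2
  refine le_trans ?_ (le_rfGrowth h1 ((InBall.gen (by simp [gens])).mono hn))
  apply le_depth h1
  intro N _ h3 h4
  have h5 : N.index ≠ 0 := h3.index_ne_zero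
  have h6 : N.index ≠ 1 := by
    intro h; rw [Subgroup.index_eq_one] at h; rw [h] at h4; exact h4 trivial
  omega

lemma rfGrowth_mono_le {m n : ℕ} (h : m ≤ n) : rfGrowth (gens MM) m ≤ rfGrowth (gens MM) n := by
  apply csSup_le'
  rintro k ⟨g, hg, hgn, rfl⟩
  exact le_csSup (growth_bdd n) ⟨g, hg, hgn.trans h, rfl⟩

end

section

lemma log_two_pos : 0 < Real.log 2 := Real.log_pos (by norm_num)

lemma log_two_le_one : Real.log 2 ≤ 1 := by
  have := Real.log_two_lt_d9; linarith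

lemma half_le_log_two : 1 / 2 ≤ Real.log 2 := by
  have := Real.log_two_gt_d9; linarith

lemma two_pow_eq (k : ℕ) : (2 : ℝ) ^ k = Real.exp ((k : ℝ) * Real.log 2) := by
  rw [Real.exp_nat_mul, Real.exp_log (by norm_num)]

lemma upper_log (n : ℕ) (hn : 2 ≤ n) :
    (rfGrowth (gens MM) n : ℝ) ≤ Real.exp (20000 * Real.log n ^ 2) := by
  obtain ⟨Lg, hLg⟩ : ∃ Lg, Lg = Nat.clog 2 (8 * n + 24) := ⟨_, rfl⟩
  obtain ⟨i, hi⟩ : ∃ i, i = Nat.clog 2 Lg := ⟨_, rfl⟩
  have h1 : 8 * n + 24 ≤ 2 ^ Lg := by rw [hLg]; exact Nat.le_pow_clog (by norm_num) _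
  have h2 : 2 ^ (Lg - 1) < 8 * n + 24 := by
    rw [hLg]; exact Nat.pow_pred_clog_lt_self (by norm_num) (x := 8 * n + 24) (by omega)
  have hLg2 : 2 ≤ Lg := by
    by_contra hcon
    have : Lg ≤ 1 := by omega
    have h3 : 2 ^ Lg ≤ 2 ^ 1 := Nat.pow_le_pow_right (by norm_num) this
    omega
  have h3 : Lg ≤ 2 ^ i := by rw [hi]; exact Nat.le_pow_clog (by norm_num) _
  have h4 : 2 ^ (i - 1) < Lg := by
    rw [hi]; exact Nat.pow_pred_clog_lt_self (by norm_num) (x := Lg) (by omega)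
  have hi1 : 1 ≤ i := by
    by_contra hcon
    have : i = 0 := by omega
    rw [this] at h3; simp at h3; omega
  have h5 : 2 ^ i ≤ 2 * Lg := by
    have : 2 ^ i = 2 * 2 ^ (i - 1) := by
      rw [← pow_succ']; congr 1; omega
    omega
  have h6 : 8 * n + 24 ≤ Q i := h1.trans (Nat.pow_le_pow_right (by norm_num) h3)
  have h7 := rfGrowth_le i n h6
  have h8 : (2 ^ (4 ^ (i + 1)) * Q (i + 1)) ^ 4 ≤ 2 ^ (128 * Lg ^ 2) := by
    unfold Q
    rw [← pow_add, ← pow_mul]
    apply Nat.pow_le_pow_right (by norm_num)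
    have g1 : (4 : ℕ) ^ (i + 1) = 4 * (2 ^ i) ^ 2 := by
      rw [pow_succ, ← pow_mul, mul_comm i 2, pow_mul]; norm_num [mul_comm]
    have g2 : (2 : ℕ) ^ (i + 1) = 2 * 2 ^ i := by rw [pow_succ]; ring
    rw [g1, g2]
    have g3 : (2 ^ i) ^ 2 ≤ (2 * Lg) ^ 2 := Nat.pow_le_pow_left h5 2
    nlinarith
  have h9 : (rfGrowth (gens MM) n : ℝ) ≤ (2 : ℝ) ^ (128 * Lg ^ 2) := by
    exact_mod_cast h7.trans h8
  refine h9.trans ?_
  have hn' : (2 : ℝ) ≤ n := by exact_mod_cast hn
  have hlogn : Real.log 2 ≤ Real.log n := Real.log_le_log (by norm_num) hn'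
  have h10 : ((Lg : ℝ) - 1) * Real.log 2 ≤ 5 * Real.log 2 + Real.log n := by
    have g1 : ((2 : ℝ) ^ (Lg - 1)) ≤ 2 ^ 5 * n := by
      have : 2 ^ (Lg - 1) ≤ 2 ^ 5 * n := by omega
      exact_mod_cast this
    have g2 := Real.log_le_log (by positivity) g1
    rw [Real.log_pow, Real.log_mul (by norm_num) (by positivity), Real.log_pow,
      Nat.cast_sub (by omega)] at g2
    push_cast at g2
    exact g2
  have h11 : (Lg : ℝ) * Real.log 2 ≤ 7 * Real.log n := by linarith
  have h12 : (Lg : ℝ) ≤ 14 * Real.log n - 0 := by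
    have := half_le_log_two
    have g : (0 : ℝ) ≤ Lg := by positivity
    nlinarith
  have h13 : ((Lg : ℝ) * Real.log 2) * Lg ≤ (7 * Real.log n) * (14 * Real.log n) := by
    apply mul_le_mul h11 (by linarith) (by positivity)
    have := log_two_pos
    linarith
  rw [two_pow_eq]
  apply Real.exp_le_exp.2
  push_cast
  nlinarith

lemma lower_log (n : ℕ) (hn : 2 ≤ n) :
    Real.exp (1 / 100 * Real.log n ^ 2) ≤ (rfGrowth (gens MM) n : ℝ) := by
  have hn' : (2 : ℝ) ≤ n := by exact_mod_cast hn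
  have hlogn : 0 ≤ Real.log n := Real.log_nonneg (by linarith)
  have hl1 := log_two_pos
  have hl2 := log_two_le_one
  rcases lt_or_ge n 36 with h36 | h36
  · have h1 : (2 : ℝ) ≤ (rfGrowth (gens MM) n : ℝ) := by
      exact_mod_cast rfGrowth_ge_two n (by omega)
    refine le_trans ?_ h1
    rw [← Real.exp_log (show (0 : ℝ) < 2 by norm_num), Real.exp_le_exp]
    have h2 : Real.log n ≤ 6 * Real.log 2 := by
      have g1 : (n : ℝ) ≤ 2 ^ 6 := by
        have : n ≤ 2 ^ 6 := by omega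
        exact_mod_cast this
      have g2 := Real.log_le_log (by positivity) g1
      rw [Real.log_pow] at g2
      exact_mod_cast g2
    nlinarith
  · have hex : ∃ j, n < 18 * Q j := by
      obtain ⟨j, hj⟩ := exists_index n
      exact ⟨j, by omega⟩
    obtain ⟨j, hj1, hj2⟩ : ∃ j, n < 18 * Q j ∧ ∀ k < j, ¬ (n < 18 * Q k) :=
      ⟨Nat.find hex, Nat.find_spec hex, fun k hk => Nat.find_min hex hk⟩
    obtain ⟨i, rfl⟩ : ∃ i, j = i + 1 := by
      rcases j with _ | i
      · exfalso; simp [Q] at hj1; omega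
      · exact ⟨i, rfl⟩
    have h1 := hj2 i (Nat.lt_succ_self i)
    have h2 : 2 ^ (4 ^ i) ≤ rfGrowth (gens MM) n :=
      (Nat.pow_le_pow_right (by norm_num) (Nat.le_succ _)).trans (rfGrowth_ge i n (by omega))
    have h3 : (2 : ℝ) ^ (4 ^ i) ≤ (rfGrowth (gens MM) n : ℝ) := by exact_mod_cast h2
    refine le_trans ?_ h3
    have h4 : (n : ℝ) ≤ 2 ^ (5 + 2 ^ (i + 1)) := by
      have : n ≤ 2 ^ (5 + 2 ^ (i + 1)) := by
        rw [pow_add]
        unfold Q at hj1
        omega
      exact_mod_cast this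
    have h5 := Real.log_le_log (by positivity) h4
    rw [Real.log_pow] at h5
    push_cast at h5
    have h6 : (1 : ℝ) ≤ 2 ^ i := one_le_pow₀ (by norm_num)
    have h7 : Real.log n ≤ 7 * 2 ^ i * Real.log 2 := by
      rw [pow_succ] at h5
      nlinarith
    rw [two_pow_eq, Real.exp_le_exp]
    have h9 : Real.log n ^ 2 ≤ (7 * 2 ^ i * Real.log 2) ^ 2 :=
      pow_le_pow_left₀ hlogn h7 2
    have h10 : (7 * (2 : ℝ) ^ i * Real.log 2) ^ 2 = 49 * 4 ^ i * (Real.log 2 * Real.log 2) := by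
      have : (4 : ℝ) ^ i = 2 ^ i * 2 ^ i := by rw [← mul_pow]; norm_num
      rw [this]; ring
    rw [h10] at h9
    push_cast
    have h11 : (0 : ℝ) < 4 ^ i := by positivity
    have h12 : (4 : ℝ) ^ i * (Real.log 2 * Real.log 2) ≤ 4 ^ i * Real.log 2 := by
      apply mul_le_mul_of_nonneg_left _ h11.le
      nlinarith
    nlinarith

/-- `f` is dominated by `h`. -/
def Dom (f h : ℕ → ℝ) : Prop := ∃ C : ℕ, 0 < C ∧ ∀ n : ℕ, 1 ≤ n → f n ≤ C * h (C * n)

/-- Intermediate growth: faster than all polynomials and slower than the exponential. -/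
def Intermediate (F : ℕ → ℕ) : Prop :=
  (∀ d : ℕ, 1 ≤ d → Dom (fun n => (n : ℝ) ^ d) (fun n => (F n : ℝ)) ∧
    ¬ Dom (fun n => (F n : ℝ)) (fun n => (n : ℝ) ^ d)) ∧
  Dom (fun n => (F n : ℝ)) (fun n => Real.exp (n : ℝ)) ∧
  ¬ Dom (fun n => Real.exp (n : ℝ)) (fun n => (F n : ℝ))

lemma intermediate_of_bounds (F : ℕ → ℕ) (c C₀ : ℝ) (hc : 0 < c) (hC₀ : 0 < C₀)
    (h : ∀ n : ℕ, 2 ≤ n → Real.exp (c * Real.log n ^ 2) ≤ (F n : ℝ) ∧
      (F n : ℝ) ≤ Real.exp (C₀ * Real.log n ^ 2)) : Intermediate F := by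
  refine ⟨fun d hd => ⟨?_, ?_⟩, ?_, ?_⟩
  · -- polynomial lower bound
    obtain ⟨C, hC⟩ := exists_nat_ge (Real.exp (d ^ 2 / (4 * c)))
    refine ⟨C + 2, by omega, fun n hn => ?_⟩
    have hn' : (1 : ℝ) ≤ n := by exact_mod_cast hn
    have h1 := (h ((C + 2) * n) (by nlinarith)).1
    have h2 : Real.log n ≤ Real.log (((C + 2) * n : ℕ) : ℝ) := by
      apply Real.log_le_log (by linarith)
      push_cast
      nlinarith [(Nat.cast_nonneg C : (0 : ℝ) ≤ C)]
    have h3 : 0 ≤ Real.log n := Real.log_nonneg hn'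
    have h4 : Real.exp (c * Real.log n ^ 2) ≤ (F ((C + 2) * n) : ℝ) := by
      refine le_trans ?_ h1
      rw [Real.exp_le_exp]
      exact mul_le_mul_of_nonneg_left (pow_le_pow_left₀ h3 h2 2) hc.le
    have h5 : (n : ℝ) ^ d = Real.exp (d * Real.log n) := by
      rw [mul_comm, Real.exp_mul, Real.exp_log (by linarith), Real.rpow_natCast]
    have h6 : d * Real.log n ≤ d ^ 2 / (4 * c) + c * Real.log n ^ 2 := by
      have : 0 ≤ c * (Real.log n - d / (2 * c)) ^ 2 := by positivity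
      have h7 : c * (Real.log n - d / (2 * c)) ^ 2 =
          c * Real.log n ^ 2 - d * Real.log n + d ^ 2 / (4 * c) := by
        field_simp; ring
      linarith
    show (n : ℝ) ^ d ≤ ((C + 2 : ℕ) : ℝ) * (F ((C + 2) * n) : ℝ)
    calc (n : ℝ) ^ d = Real.exp (d * Real.log n) := h5
      _ ≤ Real.exp (d ^ 2 / (4 * c) + c * Real.log n ^ 2) := Real.exp_le_exp.2 h6
      _ = Real.exp (d ^ 2 / (4 * c)) * Real.exp (c * Real.log n ^ 2) := Real.exp_add _ _
      _ ≤ ((C + 2 : ℕ) : ℝ) * (F ((C + 2) * n) : ℝ) := by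
        apply mul_le_mul (hC.trans (by push_cast; linarith)) h4 (Real.exp_pos _).le
          (by positivity)
  · rintro ⟨C, hC, hdom⟩
    have hC' : (1 : ℝ) ≤ C := by exact_mod_cast hC
    have hlC : 0 ≤ Real.log C := Real.log_nonneg hC'
    set K : ℝ := (d + 1) * Real.log C with hK
    have hK0 : 0 ≤ K := by positivity
    obtain ⟨n, hn⟩ := exists_nat_ge (Real.exp ((K + d + 1) / c + 1))
    have hx0 : 1 ≤ (K + d + 1) / c + 1 := by
      have : 0 ≤ (K + d + 1) / c := by positivity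
      linarith
    have hn2 : (2 : ℝ) ≤ n := by
      have : Real.exp 1 ≤ Real.exp ((K + d + 1) / c + 1) := Real.exp_le_exp.2 hx0
      have h2 := Real.add_one_le_exp (1 : ℝ)
      linarith
    have hn2' : 2 ≤ n := by exact_mod_cast hn2
    have hx : (K + d + 1) / c + 1 ≤ Real.log n := by
      rw [← Real.log_exp ((K + d + 1) / c + 1)]
      exact Real.log_le_log (Real.exp_pos _) hn
    have h1 := hdom n (by omega)
    have h2 := (h n hn2').1
    have h3 : (C : ℝ) * ((C * n : ℕ) : ℝ) ^ d = Real.exp (K + d * Real.log n) := by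
      rw [Real.exp_add, hK]
      have g1 : Real.exp ((d + 1) * Real.log C) = (C : ℝ) ^ (d + 1) := by
        rw [mul_comm, Real.exp_mul, Real.exp_log (by linarith)]
        have : ((d : ℝ) + 1) = ((d + 1 : ℕ) : ℝ) := by push_cast; ring
        rw [this, Real.rpow_natCast]
      have g2 : Real.exp (d * Real.log n) = (n : ℝ) ^ d := by
        rw [mul_comm, Real.exp_mul, Real.exp_log (by linarith), Real.rpow_natCast]
      rw [g1, g2]; push_cast; ring
    change (F n : ℝ) ≤ (C : ℝ) * ((C * n : ℕ) : ℝ) ^ d at h1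
    rw [h3] at h1
    have h4 := Real.exp_le_exp.1 (h2.trans h1)
    have h5 : c * Real.log n ≥ K + d + 1 + c := by
      have := mul_le_mul_of_nonneg_left hx hc.le
      have g : c * ((K + d + 1) / c + 1) = K + d + 1 + c := by field_simp
      linarith
    have h6 : 1 ≤ Real.log n := hx0.trans hx
    nlinarith
  · obtain ⟨C1, hC1⟩ := exists_nat_ge (4 * C₀)
    refine ⟨F 1 + C1 + 1, by omega, fun n hn => ?_⟩
    have hn' : (1 : ℝ) ≤ n := by exact_mod_cast hn
    show (F n : ℝ) ≤ ((F 1 + C1 + 1 : ℕ) : ℝ) * Real.exp (((F 1 + C1 + 1) * n : ℕ) : ℝ)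
    have hexp1 : 1 ≤ Real.exp (((F 1 + C1 + 1) * n : ℕ) : ℝ) := Real.one_le_exp (by positivity)
    rcases Nat.lt_or_ge n 2 with h2 | h2
    · obtain rfl : n = 1 := by omega
      have g1 : (F 1 : ℝ) ≤ ((F 1 + C1 + 1 : ℕ) : ℝ) := by push_cast; linarith [(Nat.cast_nonneg C1 : (0:ℝ) ≤ C1)]
      have g2 : (0 : ℝ) ≤ ((F 1 + C1 + 1 : ℕ) : ℝ) := by positivity
      nlinarith
    · have h3 := (h n h2).2
      have h4 : Real.log n ^ 2 ≤ 4 * n := by
        have g1 : Real.log n = 2 * Real.log (Real.sqrt n) := by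
          rw [Real.log_sqrt (by linarith)]; ring
        have g2 : Real.log (Real.sqrt n) ≤ Real.sqrt n := by
          have := Real.log_le_sub_one_of_pos (show 0 < Real.sqrt n from Real.sqrt_pos.2 (by linarith))
          linarith
        have g3 : 0 ≤ Real.log (Real.sqrt n) := Real.log_nonneg (by
          rw [Real.one_le_sqrt]; exact hn')
        have g4 := Real.mul_self_sqrt (show (0 : ℝ) ≤ n by linarith)
        rw [g1]
        nlinarith
      have h5 : C₀ * Real.log n ^ 2 ≤ (((F 1 + C1 + 1) * n : ℕ) : ℝ) := by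
        have g1 : C₀ * Real.log n ^ 2 ≤ C₀ * (4 * n) := mul_le_mul_of_nonneg_left h4 hC₀.le
        have g2 : C₀ * (4 * n) ≤ C1 * n := by nlinarith
        have g3 : (C1 : ℝ) * n ≤ (((F 1 + C1 + 1) * n : ℕ) : ℝ) := by
          push_cast
          have : (0 : ℝ) ≤ F 1 := Nat.cast_nonneg _
          nlinarith
        linarith
      have h6 := h3.trans (Real.exp_le_exp.2 h5)
      have g2 : (1 : ℝ) ≤ ((F 1 + C1 + 1 : ℕ) : ℝ) := by
        push_cast
        linarith [(Nat.cast_nonneg C1 : (0:ℝ) ≤ C1), (Nat.cast_nonneg (F 1) : (0:ℝ) ≤ F 1)]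
      nlinarith [Real.exp_pos (((F 1 + C1 + 1) * n : ℕ) : ℝ)]
  · rintro ⟨C, hC, hdom⟩
    have hC' : (1 : ℝ) ≤ C := by exact_mod_cast hC
    have hlC : 0 ≤ Real.log C := Real.log_nonneg hC'
    have hlim := (Real.isLittleO_pow_log_id_atTop (n := 2)).bound
      (show (0 : ℝ) < 1 / (2 * C * C₀) by positivity)
    rw [Filter.eventually_atTop] at hlim
    obtain ⟨x₀, hx₀⟩ := hlim
    obtain ⟨n, hn⟩ := exists_nat_ge (max x₀ (max 2 (2 * Real.log C + 1)))
    have hn1 : x₀ ≤ n := (le_max_left _ _).trans hn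
    have hn2 : (2 : ℝ) ≤ n := (le_max_left _ _).trans ((le_max_right _ _).trans hn)
    have hn3 : 2 * Real.log C + 1 ≤ n := (le_max_right _ _).trans ((le_max_right _ _).trans hn)
    have hn2' : 2 ≤ n := by exact_mod_cast hn2
    have h1 : x₀ ≤ ((C * n : ℕ) : ℝ) := by
      push_cast
      nlinarith
    have h2 := hx₀ _ h1
    rw [Real.norm_of_nonneg (by positivity), id, Real.norm_of_nonneg (by positivity)] at h2
    have h3 := (h (C * n) (by nlinarith)).2
    have h4 := hdom n (by omega)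
    change Real.exp (n : ℝ) ≤ (C : ℝ) * (F (C * n) : ℝ) at h4
    have h5 : Real.exp (n : ℝ) ≤ Real.exp (Real.log C + C₀ * Real.log ((C * n : ℕ) : ℝ) ^ 2) := by
      rw [Real.exp_add, Real.exp_log (by linarith)]
      exact h4.trans (mul_le_mul_of_nonneg_left h3 (by linarith))
    have h6 := Real.exp_le_exp.1 h5
    have h7 : C₀ * Real.log ((C * n : ℕ) : ℝ) ^ 2 ≤ n / 2 := by
      have g1 := mul_le_mul_of_nonneg_left h2 hC₀.le
      have g2 : C₀ * (1 / (2 * C * C₀) * ((C * n : ℕ) : ℝ)) = n / 2 := by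
        push_cast
        field_simp
      linarith
    linarith

/-- `G` is residually finite. -/
def ResFin (G : Type) [Group G] : Prop :=
  ∀ g : G, g ≠ 1 → ∃ N : Subgroup G, N.Normal ∧ N.FiniteIndex ∧ g ∉ N

/-- There is a finitely generated residually finite group of intermediate residual finiteness
growth; its growth function lies between `exp (c (log n)^2)` and `exp (C (log n)^2)`. -/
theorem result : ∃ (G : Type) (_ : Group G) (S : Set G), S.Finite ∧ Subgroup.closure S = ⊤ ∧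
    ResFin G ∧ (∀ n, BddAbove {m : ℕ | ∃ g : G, g ≠ 1 ∧ wordLength S g ≤ n ∧ depth g = m}) ∧
    Intermediate (rfGrowth S) ∧
    ∃ c C : ℝ, 0 < c ∧ 0 < C ∧ ∀ n : ℕ, 2 ≤ n →
      Real.exp (c * Real.log n ^ 2) ≤ (rfGrowth S n : ℝ) ∧
      (rfGrowth S n : ℝ) ≤ Real.exp (C * Real.log n ^ 2) := by
  have hb : ∀ n : ℕ, 2 ≤ n →
      Real.exp (1 / 100 * Real.log n ^ 2) ≤ (rfGrowth (gens MM) n : ℝ) ∧
      (rfGrowth (gens MM) n : ℝ) ≤ Real.exp (20000 * Real.log n ^ 2) :=
    fun n hn => ⟨lower_log n hn, upper_log n hn⟩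
  refine ⟨GM MM, inferInstance, gens MM, ?_, closure_gens MM, exists_finite_quotient,
    growth_bdd, intermediate_of_bounds _ (1 / 100) 20000 (by norm_num) (by norm_num) hb,
    1 / 100, 20000, by norm_num, by norm_num, hb⟩
  simp [gens]

end

end Pool.Agent.Results.MP_514792_al.IntermediateRF
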